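import Pool.Agent.Zk97.DG.Quant

/-!
# Quantitative delocalisation of the long-range discrete Gaussian chain (MP_57c4e5_pr, Q1)

For `2 < α < 3` and at every inverse temperature `β > 0` the variance of the height at the origin
of the discrete Gaussian chain on `{-n, …, n}` is at least `c n ^ (α - 2) / β` for all large `n`,
where `c > 0` depends only on `α`.  This is the order of the variance of the real-valued Gaussian
chain, so it is the best possible order.

Proof idea.  If `f` is an integer-valued function supported in `{-n, …, n}`, then the law of `ψ + f`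
has the density `r_f = exp (2 β B(ψ, f) - β H(f))` with respect to the law of `ψ`, where `B` is the
bilinear form of `H`, and a change of variables gives `E[r_f r_g] = exp (2 β B(f, g))` exactly, as for
real-valued Gaussian fields.  Since `E[ψ_0 (r_f - 1)] = f(0)`, the Cauchy-Schwarz inequality
(Hammersley-Chapman-Robbins bound) gives
`Var(ψ_0) ≥ (∑ a_f f(0))² / ∑ a_f a_g (exp (2 β B(f, g)) - 1)`.
We take the indicators of the intervals `[-s, t]`, `0 ≤ s, t < n`, with equal weights.  Their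
energies are bounded, and `B` is at most `K(|s - s'|) + K(|t - t'|)` with `K(r) ≤ K(0) r ^ (2 - α)`.
-/

set_option autoImplicit false

namespace Pool.Agent.Results.MP_57c4e5_pr.VarianceGrowth

open Filter Topology

/-- `Ω_n`: the integer-valued configurations on `ℤ` that vanish outside `{-n, …, n}`. -/
abbrev Config (n : ℕ) : Type := {ψ : ℤ → ℤ // ∀ x : ℤ, (n : ℤ) < |x| → ψ x = 0}

/-- The long-range Hamiltonian, the sum of `(ψ_x - ψ_y)² / |x - y| ^ α` over the unordered pairs
`{x, y}`, that is, over the pairs with `x < y`. -/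
noncomputable def ham (α : ℝ) (ψ : ℤ → ℤ) : ℝ :=
  ∑' p : {p : ℤ × ℤ // p.1 < p.2},
    ((ψ p.1.1 : ℝ) - (ψ p.1.2 : ℝ)) ^ 2 / |(p.1.1 : ℝ) - (p.1.2 : ℝ)| ^ α

/-- The expectation of `F` under the probability measure on `Ω_n` with weights proportional to
`exp (-β H(ψ))`. -/
noncomputable def expect (α β : ℝ) (n : ℕ) (F : Config n → ℝ) : ℝ :=
  (∑' ψ : Config n, F ψ * Real.exp (-β * ham α ψ.1)) /
    ∑' ψ : Config n, Real.exp (-β * ham α ψ.1)

/-- The variance of `ψ_0`. -/
noncomputable def var (α β : ℝ) (n : ℕ) : ℝ :=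
  expect α β n (fun ψ => (ψ.1 0 : ℝ) ^ 2) - expect α β n (fun ψ => (ψ.1 0 : ℝ)) ^ 2

open Pool.Agent.Zk97.DG

lemma ham_eq {α : ℝ} (hα : 1 < α) {n : ℕ} {ψ : ℤ → ℤ} (hψ : ψ ∈ Conf n) :
    HH α ψ = 2 * ham α ψ := by
  set f : ℤ × ℤ → ℝ := fun p => cc α p * (DD ψ p * DD ψ p) with hf
  have hs : Summable f := summable_BB hα hψ hψ
  set g : ℤ × ℤ → ℝ := ({p : ℤ × ℤ | p.1 < p.2}).indicator f with hg
  have hsg : Summable g := hs.indicator _
  have hfg : ∀ p, f p = g p + g p.swap := by
    intro p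
    simp only [hg, Set.indicator, Set.mem_ofPred_eq, Prod.fst_swap, Prod.snd_swap]
    have hsw : f p.swap = f p := by
      simp only [hf, cc_swap]
      unfold DD
      simp only [Prod.fst_swap, Prod.snd_swap]
      ring
    rcases lt_trichotomy p.1 p.2 with h | h | h
    · rw [if_pos h, if_neg (by omega), add_zero]
    · rw [if_neg (by omega), if_neg (by omega)]
      simp only [hf, cc, if_pos h]
      simp
    · rw [if_neg (by omega), if_pos h, zero_add, hsw]
  have hsg' : Summable (g ∘ (Equiv.prodComm ℤ ℤ)) := (Equiv.summable_iff (Equiv.prodComm ℤ ℤ)).2 hsg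
  have hsg'' : Summable fun p : ℤ × ℤ => g p.swap := hsg'
  have e1 : HH α ψ = ∑' p, g p + ∑' p : ℤ × ℤ, g p.swap := by
    rw [← hsg.tsum_add hsg'', HH_eq]
    exact tsum_congr fun p => hfg p
  have e2 : ∑' p : ℤ × ℤ, g p.swap = ∑' p, g p := (Equiv.prodComm ℤ ℤ).tsum_eq g
  have e3 : ∑' p, g p = ham α ψ := by
    rw [hg, ← tsum_subtype]
    unfold ham
    refine tsum_congr fun p => ?_
    simp only [hf]
    have hlt : p.1.1 < p.1.2 := p.2
    unfold cc DD
    rw [if_neg (by omega)]
    rw [Real.rpow_neg (by positivity)]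
    push_cast
    rw [div_eq_mul_inv]
    ring
  rw [e1, e2, e3]
  ring

lemma weight_eq {α : ℝ} (hα : 1 < α) (β : ℝ) {n : ℕ} (ψ : Config n) :
    Real.exp (-β * ham α ψ.1) = Real.exp (-(β / 2) * HH α ψ.1) := by
  rw [ham_eq hα (n := n) ψ.2]
  congr 1
  ring

lemma expect_zero {α : ℝ} (β : ℝ) (n : ℕ) :
    expect α β n (fun ψ => (ψ.1 0 : ℝ)) = 0 := by
  unfold expect
  have hneg : ∀ ψ : ℤ → ℤ, ham α (-ψ) = ham α ψ := by
    intro ψ
    unfold ham
    refine tsum_congr fun p => ?_
    simp only [Pi.neg_apply]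
    push_cast
    congr 1
    ring
  let e : Config n ≃ Config n := Equiv.neg (Conf n)
  have he : ∀ ψ : Config n, (e ψ).1 = -ψ.1 := fun ψ => rfl
  have h := e.tsum_eq (fun ψ : Config n => (ψ.1 0 : ℝ) * Real.exp (-β * ham α ψ.1))
  have h2 : ∑' ψ : Config n, ((e ψ).1 0 : ℝ) * Real.exp (-β * ham α (e ψ).1) =
      - ∑' ψ : Config n, (ψ.1 0 : ℝ) * Real.exp (-β * ham α ψ.1) := by
    rw [← tsum_neg]
    refine tsum_congr fun ψ => ?_
    rw [he, hneg, Pi.neg_apply]
    push_cast
    ring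
  have h3 : ∑' ψ : Config n, (ψ.1 0 : ℝ) * Real.exp (-β * ham α ψ.1) = 0 := by linarith
  rw [h3, zero_div]

lemma var_eq {α : ℝ} (hα : 1 < α) (β : ℝ) (n : ℕ) : var α β n = secondMoment α (β / 2) n := by
  unfold var
  rw [expect_zero]
  unfold expect secondMoment
  simp only [weight_eq hα β]
  rw [zero_pow (by norm_num), sub_zero]
  rfl

/-- **Quantitative delocalisation at all temperatures.**  For `2 < α < 3` there is `c > 0` such that
for every `β > 0` one has `Var(ψ_0) ≥ c n ^ (α - 2) / β` for all sufficiently large `n`. -/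
theorem result (α : ℝ) (hα : 2 < α) (hα3 : α < 3) :
    ∃ c : ℝ, 0 < c ∧ ∀ β : ℝ, 0 < β → ∃ n₀ : ℕ, ∀ n : ℕ, n₀ ≤ n →
      c * (n : ℝ) ^ (α - 2) / β ≤ var α β n := by
  obtain ⟨c, hc, h⟩ := secondMoment_rpow hα hα3
  refine ⟨2 * c, by positivity, fun β hβ => ?_⟩
  obtain ⟨n₀, hn⟩ := h (β / 2) (by positivity)
  refine ⟨n₀, fun n hn' => ?_⟩
  rw [var_eq (by linarith)]
  refine le_trans (le_of_eq ?_) (hn n hn')
  field_simp

end Pool.Agent.Results.MP_57c4e5_pr.VarianceGrowth
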